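import Pool.Agent.Q158.WQ.Main

/-!
# How random must the Wilson quotients be to give infinitely many Wilson primes?

The Wilson quotient of a prime `p` is `((p - 1)! + 1) / p`, a Wilson prime is a zero of it modulo `p`. The heuristics for Q1 takes the Wilson
quotients for independent uniform residues. Here `W` is any random family of residues `W p ∈ {0, …, p - 1}` (no independence, no uniformity is
assumed), `ent μ W x` is the Shannon entropy (nats) of the residues modulo the primes `p < x`, at most `theta x = ∑_{p < x} log p`, and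
`ll x = log log x`.
-/

set_option autoImplicit false

namespace Pool.Agent.Results.MP_de5eaa_nt.InfinitelyManyByEntropy

open MeasureTheory Filter Pool.Agent.Q158.WQ
open scoped Topology

/-- For any `d`, all families with entropy `≥ theta x - d x` (large `x`) almost surely have infinitely many Wilson primes iff
`liminf d x / log log x ≤ 0`, and then every target `c` is hit infinitely often. -/
theorem result (d : ℕ → ℝ) :
    ((∀ (Ω : Type) [MeasurableSpace Ω] (μ : Measure Ω) [IsProbabilityMeasure μ] (W : Ω → ℕ → ℕ), IsFamily W →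
      (∀ᶠ x : ℕ in atTop, theta x - d x ≤ ent μ W x) → ∀ᵐ ω ∂μ, {p : ℕ | p.Prime ∧ W ω p = 0}.Infinite) ↔
      ∀ ε : ℝ, 0 < ε → ∃ᶠ x : ℕ in atTop, d x < ε * ll x) ∧
    ((∀ ε : ℝ, 0 < ε → ∃ᶠ x : ℕ in atTop, d x < ε * ll x) →
      ∀ (Ω : Type) [MeasurableSpace Ω] (μ : Measure Ω) [IsProbabilityMeasure μ] (W : Ω → ℕ → ℕ), IsFamily W →
      (∀ᶠ x : ℕ in atTop, theta x - d x ≤ ent μ W x) → ∀ c : ℕ → ℕ, IsTarget c →
        ∀ᵐ ω ∂μ, {p : ℕ | p.Prime ∧ W ω p = c p}.Infinite) :=
  part0 d

end Pool.Agent.Results.MP_de5eaa_nt.InfinitelyManyByEntropy
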