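import Pool.Agent.Q158.WQ.Main

/-!
# The laws of the limit of the number of Wilson primes over `log log x`

The Wilson quotient of a prime `p` is `((p - 1)! + 1) / p`, a Wilson prime is a zero of it modulo `p`. The heuristics for Q1 takes the Wilson
quotients for independent uniform residues. Here `W` is any random family of residues `W p ∈ {0, …, p - 1}` (no independence, no uniformity is
assumed), `ent μ W x` is the Shannon entropy (nats) of the residues modulo the primes `p < x`, at most `theta x = ∑_{p < x} log p`, and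
`ll x = log log x`. `num W c ω x` is the number of
the primes `p < x` with `W ω p = c p`; for `c = 0` these are the Wilson primes of the family.
-/

set_option autoImplicit false

namespace Pool.Agent.Results.MP_de5eaa_nt.LimitLawsByEntropy

open MeasureTheory Filter Pool.Agent.Q158.WQ
open scoped Topology

/-- Class `δ`: entropy `≥ theta x - (δ + o(1)) log log x`. A probability measure `ν` is the law of `lim num / log log x` for some family of class `δ`
iff it lives on `[0, ∞)` and `∫ (u log u - u + 1) dν ≤ δ`. -/
theorem result (δ : ℝ) (hδ : 0 ≤ δ) (ν : Measure ℝ) (hν : IsProbabilityMeasure ν) :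
    (∃ (Ω : Type) (_ : MeasurableSpace Ω) (μ : Measure Ω) (_ : IsProbabilityMeasure μ) (W : Ω → ℕ → ℕ) (L : Ω → ℝ), Cls δ μ W ∧
      Measurable L ∧ μ.map L = ν ∧ ∀ᵐ ω ∂μ, Tendsto (fun x : ℕ => (num W (fun _ => 0) ω x : ℝ) / ll x) atTop (𝓝 (L ω))) ↔
    ν (Set.Iio 0) = 0 ∧ ∫⁻ u, ENNReal.ofReal (u * Real.log u - u + 1) ∂ν ≤ ENNReal.ofReal δ :=
  @part2 δ hδ ν hν

end Pool.Agent.Results.MP_de5eaa_nt.LimitLawsByEntropy
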