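import Pool.Agent.Q158.WQ.Main

/-!
# How random must the Wilson quotients be to give `~ log log x` Wilson primes?

The Wilson quotient of a prime `p` is `((p - 1)! + 1) / p`, a Wilson prime is a zero of it modulo `p`. The heuristics for Q1 takes the Wilson
quotients for independent uniform residues. Here `W` is any random family of residues `W p ∈ {0, …, p - 1}` (no independence, no uniformity is
assumed), `ent μ W x` is the Shannon entropy (nats) of the residues modulo the primes `p < x`, at most `theta x = ∑_{p < x} log p`, and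
`ll x = log log x`. `num W c ω x` is the number of
the primes `p < x` with `W ω p = c p`; for `c = 0` these are the Wilson primes of the family.
-/

set_option autoImplicit false

namespace Pool.Agent.Results.MP_de5eaa_nt.LogLogLawByEntropy

open MeasureTheory Filter Pool.Agent.Q158.WQ
open scoped Topology

/-- For nondecreasing `d ≥ 0`: almost surely `~ log log x` Wilson primes below `x` for all the families with entropy `≥ theta x - d x`
(large `x`) iff `∑_p d p / (p (log log p) ^ 2) < ∞`, and then the same for every target. -/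
theorem result (d : ℕ → ℝ) (hm : Monotone d) (h0 : ∀ n, 0 ≤ d n) :
    ((∀ (Ω : Type) [MeasurableSpace Ω] (μ : Measure Ω) [IsProbabilityMeasure μ] (W : Ω → ℕ → ℕ), IsFamily W →
      (∀ᶠ x : ℕ in atTop, theta x - d x ≤ ent μ W x) →
        ∀ᵐ ω ∂μ, Tendsto (fun x : ℕ => (num W (fun _ => 0) ω x : ℝ) / ll x) atTop (𝓝 1)) ↔
      Summable (fun p : ℕ => if p.Prime then d p / (p * ll p ^ 2) else 0)) ∧
    (Summable (fun p : ℕ => if p.Prime then d p / (p * ll p ^ 2) else 0) →
      ∀ (Ω : Type) [MeasurableSpace Ω] (μ : Measure Ω) [IsProbabilityMeasure μ] (W : Ω → ℕ → ℕ), IsFamily W →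
      (∀ᶠ x : ℕ in atTop, theta x - d x ≤ ent μ W x) → ∀ c : ℕ → ℕ, IsTarget c →
        ∀ᵐ ω ∂μ, Tendsto (fun x : ℕ => (num W c ω x : ℝ) / ll x) atTop (𝓝 1)) :=
  part1 d hm h0

end Pool.Agent.Results.MP_de5eaa_nt.LogLogLawByEntropy
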