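import Pool.Agent.Q158.WQ.Main

/-!
# The probability of only finitely many Wilson primes

The Wilson quotient of a prime `p` is `((p - 1)! + 1) / p`, a Wilson prime is a zero of it modulo `p`. The heuristics for Q1 takes the Wilson
quotients for independent uniform residues. Here `W` is any random family of residues `W p ∈ {0, …, p - 1}` (no independence, no uniformity is
assumed), `ent μ W x` is the Shannon entropy (nats) of the residues modulo the primes `p < x`, at most `theta x = ∑_{p < x} log p`, and
`ll x = log log x`.
-/

set_option autoImplicit false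

namespace Pool.Agent.Results.MP_de5eaa_nt.ProbabilityOfFinitelyMany

open MeasureTheory Filter Pool.Agent.Q158.WQ
open scoped Topology

/-- Class `δ`: entropy `≥ theta x - (δ + o(1)) log log x`. For all families of class `δ` and all targets `c`, the event that `W p = c p` for
only finitely many primes `p` has probability at most `min 1 δ`, and for some family of class `δ` the probability of finitely many Wilson primes is
exactly `min 1 δ`. -/
theorem result (δ : ℝ) (hδ : 0 ≤ δ) :
    (∀ (Ω : Type) [MeasurableSpace Ω] (μ : Measure Ω) [IsProbabilityMeasure μ] (W : Ω → ℕ → ℕ), Cls δ μ W → ∀ c : ℕ → ℕ, IsTarget c →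
      μ.real {ω | {p : ℕ | p.Prime ∧ W ω p = c p}.Finite} ≤ min 1 δ) ∧
    ∃ (Ω : Type) (_ : MeasurableSpace Ω) (μ : Measure Ω) (_ : IsProbabilityMeasure μ) (W : Ω → ℕ → ℕ), Cls δ μ W ∧
      μ.real {ω | {p : ℕ | p.Prime ∧ W ω p = 0}.Finite} = min 1 δ :=
  ⟨fun _ _ _ _ _ hW _ hc => le_min measureReal_le_one (fin_le hδ hc hW), exists_fin hδ⟩

end Pool.Agent.Results.MP_de5eaa_nt.ProbabilityOfFinitelyMany
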